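import Pool.Agent.U685.IN.Stm

/-!
# Change of measure for exponential weights
-/

set_option autoImplicit false
open MeasureTheory ProbabilityTheory Filter Set
open scoped ENNReal Topology

namespace Pool.Agent.U765.IX

open Pool.Agent.N662.FP
open Pool.Agent.U685.IN

/-- the density of the law of `(1 - ε) x` with respect to the law of `x`, where `l = 1 / (1 - ε)` -/
noncomputable def Z (l : ℝ) (u : ℝ) : ℝ≥0∞ := ENNReal.ofReal (l * Real.exp (-((l - 1) * u)))

lemma meas_Z (l : ℝ) : Measurable (Z l) := by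
  unfold Z; fun_prop

lemma exp_def : (expMeasure 1) = (volume : Measure ℝ).withDensity (exponentialPDF 1) := rfl

lemma meas_pdf (r : ℝ) : Measurable (exponentialPDF r) := by
  unfold exponentialPDF
  exact (measurable_exponentialPDFReal r).ennreal_ofReal

/-- the law of `(1 - ε) x` -/
lemma one_var {ε l : ℝ} (h1 : ε < 1) (hl : l = 1 / (1 - ε)) (hl1 : 0 < l) {g : ℝ → ℝ≥0∞}
    (hg : Measurable g) :
    ∫⁻ x, g ((1 - ε) * x) ∂(expMeasure 1) = ∫⁻ x, g x * Z l x ∂(expMeasure 1) := by
  have h0 : (0 : ℝ) < 1 - ε := by linarith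
  have hl2 : l * (1 - ε) = 1 := by rw [hl]; field_simp
  rw [exp_def, lintegral_withDensity_eq_lintegral_mul _ (meas_pdf 1) (by fun_prop),
    lintegral_withDensity_eq_lintegral_mul _ (meas_pdf 1)
      (show Measurable (fun x => g x * Z l x) from hg.mul (meas_Z l))]
  have e1 : ∀ x : ℝ, (exponentialPDF 1 * fun x => g ((1 - ε) * x)) x =
      (fun u => exponentialPDF 1 (l * u) * g u) ((1 - ε) * x) := by
    intro x
    simp only [Pi.mul_apply]
    rw [← mul_assoc, hl2, one_mul]
  simp_rw [e1]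
  have hm : Measurable (fun u => exponentialPDF 1 (l * u) * g u) :=
    ((meas_pdf 1).comp (measurable_const_mul l)).mul hg
  have e2 : ∫⁻ x : ℝ, (fun u => exponentialPDF 1 (l * u) * g u) ((1 - ε) * x) =
      ENNReal.ofReal l * ∫⁻ u : ℝ, exponentialPDF 1 (l * u) * g u := by
    rw [← lintegral_map hm (measurable_const_mul (1 - ε)), Real.map_volume_mul_left h0.ne',
      lintegral_smul_measure]
    congr 2
    rw [abs_of_pos (inv_pos.2 h0), hl, one_div]
  rw [e2, ← lintegral_const_mul _ hm]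
  refine lintegral_congr fun u => ?_
  simp only [Pi.mul_apply, Z]
  rcases lt_or_ge u 0 with hs | hs
  · rw [exponentialPDF_of_neg hs, exponentialPDF_of_neg (mul_neg_of_pos_of_neg hl1 hs)]; simp
  · rw [exponentialPDF_of_nonneg hs, exponentialPDF_of_nonneg (by positivity), one_mul, one_mul,
      ← mul_assoc, ← ENNReal.ofReal_mul (by positivity), mul_comm (g u), ← mul_assoc,
      ← ENNReal.ofReal_mul (by positivity)]
    congr 2
    rw [show 1 * Real.exp (-(1 * u)) * (l * Real.exp (-((l - 1) * u))) =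
      l * (Real.exp (-(1 * u)) * Real.exp (-((l - 1) * u))) by ring, ← Real.exp_add]
    congr 2
    ring

lemma int_Z {ε l : ℝ} (h1 : ε < 1) (hl : l = 1 / (1 - ε)) (hl1 : 0 < l) :
    ∫⁻ x, Z l x ∂(expMeasure 1) = 1 := by
  have := one_var h1 hl hl1 (g := fun _ => 1) measurable_const
  simp only [one_mul, lintegral_const] at this
  rw [← this]
  have : IsProbabilityMeasure (expMeasure 1) := isProbabilityMeasure_expMeasure one_pos
  simp

lemma int_Z_sq {ε l : ℝ} (h0 : 0 ≤ ε) (h1 : ε < 1) (hl : l = 1 / (1 - ε)) :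
    ∫⁻ x, Z l x ^ 2 ∂(expMeasure 1) = ENNReal.ofReal (1 / (1 - ε ^ 2)) := by
  have h2 : (0 : ℝ) < 1 - ε := by linarith
  have hl1 : 1 ≤ l := by rw [hl, le_div_iff₀ h2]; linarith
  have hl0 : 0 < 2 * l - 1 := by linarith
  have hZ : Measurable fun x => Z l x ^ 2 := (meas_Z l).pow_const 2
  rw [exp_def, lintegral_withDensity_eq_lintegral_mul _ (meas_pdf 1) hZ]
  have e1 : ∀ s : ℝ, (exponentialPDF 1 * fun s => Z l s ^ 2) s =
      ENNReal.ofReal (l ^ 2 / (2 * l - 1)) * exponentialPDF (2 * l - 1) s := by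
    intro s
    rw [Pi.mul_apply]
    rcases lt_or_ge s 0 with hs | hs
    · rw [exponentialPDF_of_neg hs, exponentialPDF_of_neg hs]; simp
    · rw [exponentialPDF_of_nonneg hs, exponentialPDF_of_nonneg hs, Z,
        ← ENNReal.ofReal_pow (by positivity),
        ← ENNReal.ofReal_mul (by positivity), ← ENNReal.ofReal_mul (by positivity)]
      congr 1
      rw [mul_pow, ← Real.exp_nat_mul, one_mul, one_mul]
      rw [show l ^ 2 / (2 * l - 1) * ((2 * l - 1) * Real.exp (-((2 * l - 1) * s))) =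
        l ^ 2 * Real.exp (-((2 * l - 1) * s)) by rw [← mul_assoc, div_mul_cancel₀ _ hl0.ne']]
      rw [show Real.exp (-s) * (l ^ 2 * Real.exp ((2 : ℕ) * (-((l - 1) * s)))) =
        l ^ 2 * (Real.exp (-s) * Real.exp ((2 : ℕ) * (-((l - 1) * s)))) by ring, ← Real.exp_add]
      congr 2
      push_cast
      ring
  simp_rw [e1]
  rw [lintegral_const_mul' _ _ ENNReal.ofReal_ne_top, lintegral_exponentialPDF_eq_one hl0, mul_one]
  congr 1
  have h3 : (1 : ℝ) + ε ≠ 0 := by linarith
  have h4 : (1 : ℝ) - ε ≠ 0 := h2.ne'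
  have h5 : (1 : ℝ) - ε ^ 2 ≠ 0 := by
    have : (1 : ℝ) - ε ^ 2 = (1 - ε) * (1 + ε) := by ring
    rw [this]; exact mul_ne_zero h4 h3
  have h6 : 2 * (1 / (1 - ε)) - 1 = (1 + ε) / (1 - ε) := by field_simp; ring
  rw [hl, h6]
  field_simp
  ring

variable {Ω : Type} [MeasureSpace Ω] [IsProbabilityMeasure (volume : Measure Ω)]
  {X : Sym2 (ℤ × ℤ) → Ω → ℝ}

lemma int_prod (hX : Iid X) (s : Finset (Sym2 (ℤ × ℤ))) (f : Sym2 (ℤ × ℤ) → ℝ → ℝ≥0∞)
    (hf : ∀ e, Measurable (f e)) :
    ∫⁻ ω, ∏ e ∈ s, f e (X e ω) ∂(volume : Measure Ω) = ∏ e ∈ s, ∫⁻ x, f e x ∂(expMeasure 1) := by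
  have h1 := lintegral_prod_eq_prod_lintegral_of_indepFun (μ := (volume : Measure Ω)) s
    (fun e => f e ∘ X e) (hX.ind.comp f hf) fun e => (hf e).comp (hX.meas e)
  simp only [Function.comp] at h1
  rw [h1]
  refine Finset.prod_congr rfl fun e _ => ?_
  rw [← hX.law e, lintegral_map (hf e) (hX.meas e)]

/-- the law of the scaled environment -/
lemma law_sc (hX : Iid X) (F : Finset (Sym2 (ℤ × ℤ))) {ε l : ℝ} (h1 : ε < 1)
    (hl : l = 1 / (1 - ε)) (hl1 : 0 < l) :
    Measure.map (fun ω => sc F ε (env X ω)) (volume : Measure Ω) =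
      Measure.map (fun ω => env X ω)
        ((volume : Measure Ω).withDensity fun ω => ∏ e ∈ F, Z l (X e ω)) := by
  classical
  set φ : Sym2 (ℤ × ℤ) → ℝ → ℝ := fun e x => if e ∈ F then (1 - ε) * x else x with hφ
  have hφm : ∀ e, Measurable (φ e) := by
    intro e
    by_cases he : e ∈ F
    · simp only [hφ, if_pos he]; fun_prop
    · simp only [hφ, if_neg he]; fun_prop
  have hY : iIndepFun (fun e => φ e ∘ X e) (volume : Measure Ω) := hX.ind.comp φ hφm
  have hYm : ∀ e, Measurable (φ e ∘ X e) := fun e => (hφm e).comp (hX.meas e)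
  have hA := (iIndepFun_iff_map_fun_eq_infinitePi_map hYm).1 hY
  have hsc : (fun ω => sc F ε (env X ω)) = fun ω e => (φ e ∘ X e) ω := by
    funext ω e
    simp only [sc, env, hφ, Function.comp]
  rw [hsc, hA]
  have : ∀ e, IsProbabilityMeasure (Measure.map (φ e ∘ X e) (volume : Measure Ω)) :=
    fun e => Measure.isProbabilityMeasure_map (hYm e).aemeasurable
  symm
  have hXm : Measurable (fun ω => env X ω) := measurable_pi_iff.2 fun e => hX.meas e
  refine Measure.eq_infinitePi _ ?_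
  intro s t ht
  have hbox : MeasurableSet (Set.pi (s : Set (Sym2 (ℤ × ℤ))) t) :=
    MeasurableSet.pi s.countable_toSet fun i _ => ht i
  rw [Measure.map_apply hXm hbox, withDensity_apply _ (hXm hbox), ← lintegral_indicator (hXm hbox)]
  set f : Sym2 (ℤ × ℤ) → ℝ → ℝ≥0∞ := fun e x =>
    (if e ∈ s then (t e).indicator (fun _ => (1 : ℝ≥0∞)) x else 1) * (if e ∈ F then Z l x else 1) with hf
  have hfm : ∀ e, Measurable (f e) := by
    intro e
    refine Measurable.mul ?_ ?_
    · by_cases he : e ∈ s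
      · simp only [if_pos he]; exact measurable_const.indicator (ht e)
      · simp only [if_neg he]; exact measurable_const
    · by_cases he : e ∈ F
      · simp only [if_pos he]; exact meas_Z l
      · simp only [if_neg he]; exact measurable_const
  have e1 : ∀ ω, ((fun ω => env X ω) ⁻¹' Set.pi (s : Set (Sym2 (ℤ × ℤ))) t).indicator
      (fun ω => ∏ e ∈ F, Z l (X e ω)) ω = ∏ e ∈ s ∪ F, f e (X e ω) := by
    intro ω
    have e2 : ∏ e ∈ s ∪ F, (if e ∈ F then Z l (X e ω) else 1) = ∏ e ∈ F, Z l (X e ω) := by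
      rw [Finset.prod_ite_mem, Finset.inter_eq_right.2 Finset.subset_union_right]
    have e3 : ∏ e ∈ s ∪ F, (if e ∈ s then (t e).indicator (fun _ => (1 : ℝ≥0∞)) (X e ω) else 1) =
        ∏ e ∈ s, (t e).indicator (fun _ => (1 : ℝ≥0∞)) (X e ω) := by
      rw [Finset.prod_ite_mem, Finset.inter_eq_right.2 Finset.subset_union_left]
    rw [hf]
    simp only
    rw [Finset.prod_mul_distrib, e2, e3]
    by_cases hω : ω ∈ (fun ω => env X ω) ⁻¹' Set.pi (s : Set (Sym2 (ℤ × ℤ))) t
    · rw [indicator_of_mem hω]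
      have : ∏ e ∈ s, (t e).indicator (fun _ => (1 : ℝ≥0∞)) (X e ω) = 1 := by
        refine Finset.prod_eq_one fun e he => ?_
        rw [indicator_of_mem]
        exact hω e he
      rw [this, one_mul]
    · rw [indicator_of_notMem hω]
      have h5 : ∃ e ∈ s, X e ω ∉ t e := by
        by_contra h6
        push Not at h6
        exact hω fun e he => h6 e he
      obtain ⟨e, he, h6⟩ := h5
      rw [Finset.prod_eq_zero he, zero_mul]
      rw [indicator_of_notMem h6]
  rw [lintegral_congr e1, int_prod hX _ f hfm]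
  -- enlarge the product on the right-hand side
  have e4 : ∀ e, ∫⁻ x, f e x ∂(expMeasure 1) =
      if e ∈ s then Measure.map (φ e ∘ X e) (volume : Measure Ω) (t e) else 1 := by
    intro e
    have : IsProbabilityMeasure (expMeasure 1) := isProbabilityMeasure_expMeasure one_pos
    have h7 : ∀ A : Set ℝ, MeasurableSet A → Measure.map (φ e ∘ X e) (volume : Measure Ω) A =
        ∫⁻ x, A.indicator (fun _ => (1 : ℝ≥0∞)) (φ e x) ∂(expMeasure 1) := by
      intro A hA
      rw [← Measure.map_map (hφm e) (hX.meas e), hX.law e, Measure.map_apply (hφm e) hA,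
        ← lintegral_indicator_one (hφm e hA)]
      rfl
    by_cases hes : e ∈ s
    · rw [if_pos hes, h7 _ (ht e)]
      by_cases heF : e ∈ F
      · simp only [hf, hφ, if_pos hes, if_pos heF]
        exact (one_var h1 hl hl1 (measurable_const.indicator (ht e))).symm
      · simp only [hf, hφ, if_pos hes, if_neg heF, mul_one]
    · rw [if_neg hes]
      by_cases heF : e ∈ F
      · simp only [hf, if_neg hes, if_pos heF, one_mul]
        exact int_Z h1 hl hl1
      · simp [hf, if_neg hes, if_neg heF]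
  rw [Finset.prod_congr rfl fun e _ => e4 e, Finset.prod_ite_mem,
    Finset.inter_eq_right.2 Finset.subset_union_left]

theorem t_TILT : Pool.Agent.U685.IN.S_TILT := by
  intro Ω _ _ X hX F ε h0 h2 E hE
  classical
  have h1 : ε < 1 := by linarith
  obtain ⟨l, hl⟩ : ∃ l, l = 1 / (1 - ε) := ⟨_, rfl⟩
  have h3 : (0 : ℝ) < 1 - ε := by linarith
  have hl1 : 0 < l := by rw [hl]; positivity
  have hXm : Measurable (fun ω => env X ω) := measurable_pi_iff.2 fun e => hX.meas e
  have hsm : Measurable (fun ω => sc F ε (env X ω)) := by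
    refine measurable_pi_iff.2 fun e => ?_
    by_cases he : e ∈ F
    · have : (fun ω => sc F ε (env X ω) e) = fun ω => (1 - ε) * X e ω := by
        funext ω; simp [sc, env, he]
      rw [this]; exact (hX.meas e).const_mul _
    · have : (fun ω => sc F ε (env X ω) e) = fun ω => X e ω := by
        funext ω; simp [sc, env, he]
      rw [this]; exact hX.meas e
  set A : Set Ω := {ω | env X ω ∈ E} with hA
  have hAm : MeasurableSet A := hXm hE
  set G : Ω → ℝ≥0∞ := fun ω => ∏ e ∈ F, Z l (X e ω) with hG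
  have hGm : Measurable G := Finset.measurable_prod _ fun e _ => (meas_Z l).comp (hX.meas e)
  have k1 : (volume : Measure Ω) {ω | sc F ε (env X ω) ∈ E} =
      ∫⁻ ω, A.indicator (fun _ => (1 : ℝ≥0∞)) ω * G ω ∂(volume : Measure Ω) := by
    have := congrArg (fun m => m E) (law_sc hX F h1 hl hl1)
    beta_reduce at this
    rw [Measure.map_apply hsm hE, Measure.map_apply hXm hE, withDensity_apply _ (hXm hE),
      ← lintegral_indicator (hXm hE)] at this
    rw [show {ω | sc F ε (env X ω) ∈ E} = (fun ω => sc F ε (env X ω)) ⁻¹' E from rfl, this]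
    refine lintegral_congr fun ω => ?_
    by_cases hω : ω ∈ A
    · rw [indicator_of_mem hω, indicator_of_mem (by exact hω), one_mul]
    · rw [indicator_of_notMem hω, indicator_of_notMem (by exact hω), zero_mul]
  have k2 : ∫⁻ ω, G ω ^ 2 ∂(volume : Measure Ω) = ENNReal.ofReal (1 / (1 - ε ^ 2)) ^ F.card := by
    have e1 : ∀ ω, G ω ^ 2 = ∏ e ∈ F, (fun x => Z l x ^ 2) (X e ω) := by
      intro ω; rw [hG]; simp only; rw [← Finset.prod_pow]
    rw [lintegral_congr e1, int_prod hX F (fun _ x => Z l x ^ 2) fun _ => (meas_Z l).pow_const 2]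
    rw [Finset.prod_congr rfl fun e _ => int_Z_sq h0 h1 hl, Finset.prod_const]
  have hIm : Measurable (A.indicator (fun _ => (1 : ℝ≥0∞))) := measurable_const.indicator hAm
  have k3 := ENNReal.lintegral_mul_le_Lp_mul_Lq (volume : Measure Ω)
    (Real.HolderConjugate.two_two) hIm.aemeasurable hGm.aemeasurable
  have k4 : ∀ ω, A.indicator (fun _ => (1 : ℝ≥0∞)) ω ^ (2 : ℝ) = A.indicator (fun _ => (1 : ℝ≥0∞)) ω := by
    intro ω
    by_cases hω : ω ∈ A
    · rw [indicator_of_mem hω]; simp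
    · rw [indicator_of_notMem hω]; simp
  have k5 : ∀ ω, G ω ^ (2 : ℝ) = G ω ^ 2 := fun ω => by
    rw [← ENNReal.rpow_natCast]; norm_num
  simp only [Pi.mul_apply] at k3
  have k9 : ∫⁻ ω, A.indicator (fun _ => (1 : ℝ≥0∞)) ω ∂(volume : Measure Ω) = (volume : Measure Ω) A := by
    rw [lintegral_indicator hAm]; simp
  rw [lintegral_congr k4, lintegral_congr k5, k2, k9, ← k1] at k3
  -- square
  have k6 : (volume : Measure Ω) {ω | sc F ε (env X ω) ∈ E} ^ 2 ≤
      (volume : Measure Ω) A * ENNReal.ofReal (1 / (1 - ε ^ 2)) ^ F.card := by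
    calc (volume : Measure Ω) {ω | sc F ε (env X ω) ∈ E} ^ 2
        ≤ ((volume : Measure Ω) A ^ (1 / (2 : ℝ)) *
          (ENNReal.ofReal (1 / (1 - ε ^ 2)) ^ F.card) ^ (1 / (2 : ℝ))) ^ 2 := by gcongr
      _ = _ := by
        rw [mul_pow, ← ENNReal.rpow_natCast, ← ENNReal.rpow_mul, ← ENNReal.rpow_natCast (_ ^ _),
          ← ENNReal.rpow_mul]
        norm_num
  have k7 : (1 : ℝ) / (1 - ε ^ 2) ≤ Real.exp (2 * ε ^ 2) := by
    have q1 : ε ^ 2 ≤ 1 / 4 := by nlinarith
    have q2 : (0 : ℝ) < 1 - ε ^ 2 := by linarith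
    have q3 : ε ^ 2 / (1 - ε ^ 2) ≤ 2 * ε ^ 2 := by
      rw [div_le_iff₀ q2]; nlinarith [sq_nonneg ε]
    calc (1 : ℝ) / (1 - ε ^ 2) = ε ^ 2 / (1 - ε ^ 2) + 1 := by field_simp; ring
      _ ≤ Real.exp (ε ^ 2 / (1 - ε ^ 2)) := Real.add_one_le_exp _
      _ ≤ _ := Real.exp_le_exp.2 q3
  have q2 : (0 : ℝ) < 1 - ε ^ 2 := by nlinarith
  have k8 := ENNReal.toReal_mono (by finiteness) k6
  rw [ENNReal.toReal_pow, ENNReal.toReal_mul, ENNReal.toReal_pow,
    ENNReal.toReal_ofReal (by positivity)] at k8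
  calc ((volume : Measure Ω).real {ω | sc F ε (env X ω) ∈ E}) ^ 2
      ≤ (volume : Measure Ω).real A * (1 / (1 - ε ^ 2)) ^ F.card := k8
    _ ≤ (volume : Measure Ω).real A * (Real.exp (2 * ε ^ 2)) ^ F.card := by gcongr
    _ = Real.exp (2 * F.card * ε ^ 2) * (volume : Measure Ω).real A := by
        rw [← Real.exp_nat_mul, mul_comm]
        congr 2
        ring

end Pool.Agent.U765.IX
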